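import Mathlib

namespace Pool.Agent.Results.MP_91c91a_lc.Order

open Set Sum

/-- the word is accepted from the given state by the NFA with accepting states `F` and transitions `δ` -/
def Acc {Q S : Type} (F : Set Q) (δ : Set (Q × S × Q)) : List S → Q → Prop
  | [], p => p ∈ F
  | a :: w, p => ∃ q, (p, a, q) ∈ δ ∧ Acc F δ w q

/-- some NFA with exactly `m` transitions recognises `L` -/
def Has {S : Type} (L : Set (List S)) (m : ℕ) : Prop :=
  ∃ (Q : Type) (_ : Finite Q) (q : Q) (F : Set Q) (δ : Set (Q × S × Q)), L = {w | Acc F δ w q} ∧ δ.ncard = m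

/-- transition complexity -/
noncomputable def tc {S : Type} (L : Set (List S)) : ℕ := sInf {m | Has L m}

/-- the values `tc (h⁻¹ L)` with `tc L = m` and `k` letters in the source alphabet -/
def vals (k m : ℕ) : Set ℕ := {t | ∃ (S : Type) (_ : Finite S) (h : Fin k → List S) (L : Set (List S)),
  (∃ j, Has L j) ∧ tc L = m ∧ t = tc {w | w.flatMap h ∈ L}}

noncomputable def g (k m : ℕ) : ℕ := sSup (vals k m)

variable {Q S : Type}

lemma app (F : Set Q) (δ : Set (Q × S × Q)) (u v : List S) (p : Q) :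
    Acc F δ (u ++ v) p ↔ ∃ q, Acc {q} δ u p ∧ Acc F δ v q := by
  induction u generalizing p with
  | nil => simp [Acc]
  | cons a u ih =>
    simp only [List.cons_append, Acc, ih]
    exact ⟨fun ⟨q, x, r, y, z⟩ => ⟨r, ⟨q, x, y⟩, z⟩, fun ⟨r, ⟨q, x, y⟩, z⟩ => ⟨q, x, r, y, z⟩⟩

lemma cl {δ : Set (Q × S × Q)} {T : Set Q} (h : ∀ x ∈ δ, x.2.2 ∈ T) {u : List S} {p q : Q} (m : p ∈ T)
    (a : Acc {q} δ u p) : q ∈ T := by
  induction u generalizing p with
  | nil => exact (show p = q from a) ▸ m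
  | cons b u ih => obtain ⟨r, x, y⟩ := a; exact ih (h _ x) y

lemma surj {α β : Type} [Finite β] (s : Set α) (hs : s.Finite) (ne : s.Nonempty) (h : s.ncard ≤ Nat.card β) :
    ∃ f : β → α, range f = s := by
  have := hs.to_subtype
  have := ne.to_subtype
  have := Fintype.ofFinite s
  have := Fintype.ofFinite β
  obtain ⟨e⟩ := Function.Embedding.nonempty_of_card_le (α := s) (β := β)
    (by rwa [← Nat.card_eq_fintype_card, ← Nat.card_eq_fintype_card])
  exact ⟨Subtype.val ∘ Function.invFun e, by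
    rw [range_comp, (Function.invFun_surjective e.injective).range_eq, image_univ, Subtype.range_coe]⟩

lemma has_tc {L : Set (List S)} (h : ∃ j, Has L j) : Has L (tc L) := Nat.sInf_mem h

lemma trim [Finite S] {L : Set (List S)} {m : ℕ} (h : Has L m) {β : Type} [Finite β] (b : m + 1 ≤ Nat.card β) :
    ∃ (Q : Type) (_ : Finite Q) (F : Set Q) (δ : Set (Q × S × Q)) (f : β → Q) (p : β), L = {w | Acc F δ w (f p)} ∧
      δ.ncard = m ∧ ∀ x ∈ δ, x.2.2 ∈ range f := by
  obtain ⟨Q, _, q, F, δ, e, c⟩ := h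
  obtain ⟨f, hf⟩ := surj (β := β) (insert q ((·.2.2) '' δ)) (toFinite _) (by simp)
    ((ncard_insert_le _ _).trans (by have := ncard_image_le (f := (·.2.2)) (toFinite δ); omega))
  obtain ⟨p, rfl⟩ : q ∈ range f := by simp [hf]
  exact ⟨Q, ‹_›, F, δ, f, p, e, c, fun x m => hf ▸ Or.inr (mem_image_of_mem _ m)⟩

lemma upper [Finite S] {k m N t : ℕ} {L : Set (List S)} (h : Fin k → List S) (H : Has L m) (b : m + 1 ≤ N * t) :
    ∃ j ≤ N * t * k * k * N + k * N * 2 ^ t * t + N * t * k, Has {w | w.flatMap h ∈ L} j := by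
  obtain ⟨Q, _, F, δ, f, p, rfl, -, c⟩ := trim H (β := Fin N × Fin t) (by simpa)
  obtain ⟨A, hA⟩ : ∃ A : (Fin N × Fin t) × Fin k × Fin k × Fin N → _, A = fun x => ((some (inl x.1), x.2.1,
    some (inr (x.2.2.1, x.2.2.2, {i | Acc {f (x.2.2.2, i)} δ (h x.2.1 ++ h x.2.2.1) (f x.1)}))) :
      Option ((Fin N × Fin t) ⊕ Fin k × Fin N × Set (Fin t)) × Fin k × Option _) := ⟨_, rfl⟩
  obtain ⟨B, hB⟩ : ∃ B : Fin k × Fin N × Set (Fin t) × Fin t → _, B = fun x => ((some (inr (x.1, x.2.1, x.2.2.1)), x.1,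
    some (inl (x.2.1, x.2.2.2))) : Option ((Fin N × Fin t) ⊕ Fin k × Fin N × Set (Fin t)) × Fin k × Option _) := ⟨_, rfl⟩
  obtain ⟨C, hC⟩ : ∃ C : (Fin N × Fin t) × Fin k → _, C = fun x => ((some (inl x.1), x.2, none) :
      Option ((Fin N × Fin t) ⊕ Fin k × Fin N × Set (Fin t)) × Fin k × Option _) := ⟨_, rfl⟩
  refine ⟨_, ?_, _, inferInstance, some (inl p), insert none ((fun x => some (inl x)) '' (f ⁻¹' F)),
    range A ∪ B '' {x | x.2.2.2 ∈ x.2.2.1} ∪ C '' {x | Acc F δ (h x.2) (f x.1)}, ?_, rfl⟩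
  · refine (ncard_union_le _ _).trans (add_le_add ((ncard_union_le _ _).trans (add_le_add ?_ ?_)) ?_)
    · rw [← image_univ]; exact (ncard_image_le).trans (by simp [mul_assoc])
    · exact (ncard_image_le).trans ((ncard_le_card _).trans (by simp [mul_assoc]))
    · exact (ncard_image_le).trans ((ncard_le_card _).trans (by simp [mul_assoc]))
  · clear H
    ext w
    simp only [mem_ofPred_eq]
    induction w using List.twoStepInduction generalizing p with
    | nil => simp [Acc]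
    | singleton a =>
      rw [List.flatMap_singleton]
      refine ⟨fun x => ⟨none, Or.inr ⟨(p, a), x, by rw [hC]⟩, Or.inl rfl⟩, ?_⟩
      rintro ⟨q, (⟨y, x⟩ | ⟨y, _, x⟩) | ⟨y, u, x⟩, z⟩ <;> simp only [hA, hB, hC, Prod.mk.injEq] at x
      · simp [Acc, ← x.2.2] at z
      · simp at x
      · simp at x; rwa [← x.1, ← x.2.1]
    | cons_cons a b w ih _ =>
      rw [List.flatMap_cons, List.flatMap_cons, ← List.append_assoc, app]
      constructor
      · rintro ⟨q, x, y⟩
        obtain ⟨⟨j, i⟩, rfl⟩ := cl c (mem_range_self p) x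
        exact ⟨_, Or.inl (Or.inl ⟨(p, a, b, j), by rw [hA]⟩), _, Or.inl (Or.inr ⟨(b, j, {i | Acc {f (j, i)} δ (h a ++ h b) (f p)}, i), x, by rw [hB]⟩), (ih _).1 y⟩
      · rintro ⟨q, x, r, y, z⟩
        simp only [hA, hB, hC, mem_union, mem_range, mem_image, mem_ofPred_eq, Prod.mk.injEq] at x y
        rcases x with (⟨⟨p', a', b', j⟩, x, rfl, rfl⟩ | ⟨_, _, x, _⟩) | ⟨_, _, _, _, rfl⟩
        · rcases y with (⟨_, y, _⟩ | ⟨⟨b'', j', U, i⟩, u, y, rfl, rfl⟩) | ⟨_, _, y, _⟩ <;> simp at x y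
          obtain ⟨rfl, rfl, rfl⟩ := y
          subst x
          exact ⟨_, u, (ih _).2 z⟩
        · simp at x
        · simp at y

lemma pad [Finite S] {L : Set (List S)} (r : ∃ j, Has L j) (ne : L.Nonempty) : ∃ L' : Set (List (Option S)),
    (∃ j, Has L' j) ∧ tc L' = tc L + 1 ∧ ∀ w, w.map some ∈ L' ↔ w ∈ L := by
  have k : ∀ (Q : Type) (F : Set Q) (δ : Set (Q × Option S × Q)) (w : List S) q,
      Acc F δ (w.map some) q ↔ Acc F {x | (x.1, some x.2.1, x.2.2) ∈ δ} w q := fun Q F δ w => by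
    induction w with
    | nil => simp [Acc]
    | cons a w ih => simp [Acc, ih]
  obtain ⟨Q, _, q, F, δ, e, c⟩ := has_tc r
  obtain ⟨D, hD⟩ : ∃ D : Set (Q × Option S × Q), D = insert (q, none, q) ((fun x => (x.1, some x.2.1, x.2.2)) '' δ) :=
    ⟨_, rfl⟩
  have a : ∀ w : List S, w.map some ∈ {w | Acc F D w q} ↔ w ∈ L := fun w => by
    rw [e, mem_ofPred_eq, k, mem_ofPred_eq]
    congr! 1
    ext ⟨a, b, c⟩
    simp [hD]
  have b : Has {w | Acc F D w q} D.ncard := ⟨Q, ‹_›, q, F, D, rfl, rfl⟩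
  refine ⟨_, ⟨_, b⟩, le_antisymm ((Nat.sInf_le b).trans ?_) ?_, a⟩
  · rw [hD, ← c]; exact (ncard_insert_le _ _).trans (by simpa using ncard_image_le)
  · obtain ⟨P, _, p, G, E, x, y⟩ := has_tc ⟨_, b⟩
    obtain ⟨w, m⟩ := ne
    obtain ⟨p', z, -⟩ : none :: w.map some ∈ {w | Acc G E w p} := x ▸ ⟨q, by simp [hD], (a w).2 m⟩
    have : Has L {x : P × S × P | (x.1, some x.2.1, x.2.2) ∈ E}.ncard :=
      ⟨P, ‹_›, p, G, _, by ext w; rw [← a, x, mem_ofPred_eq, k, mem_ofPred_eq], rfl⟩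
    rw [← y]
    refine (Nat.sInf_le this).trans_lt ?_
    rw [← ncard_image_of_injective _ (f := fun x : P × S × P => (x.1, some x.2.1, x.2.2))
      fun ⟨_, _, _⟩ ⟨_, _, _⟩ e => by simpa using e]
    exact ncard_lt_ncard ⟨by rintro _ ⟨_, u, rfl⟩; exact u, fun u => by simpa using u z⟩

lemma pads [Finite S] {k m : ℕ} {L : Set (List S)} (h : Fin k → List S) (r : ∃ j, Has L j) (ne : L.Nonempty)
    (l : tc L ≤ m) : tc {w : List (Fin k) | w.flatMap h ∈ L} ∈ vals k m := by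
  have : ∃ (S' : Type) (_ : Finite S') (h' : Fin k → List S') (L' : Set (List S')), (∃ j, Has L' j) ∧ tc L' = m ∧
      L'.Nonempty ∧ {w : List (Fin k) | w.flatMap h ∈ L} = {w | w.flatMap h' ∈ L'} := by
    induction m, l using Nat.le_induction with
    | base => exact ⟨S, ‹_›, h, L, r, rfl, ne, rfl⟩
    | succ m _ ih =>
      obtain ⟨S', _, h', L', a, b, ⟨w, c⟩, d⟩ := ih
      obtain ⟨M, x, y, z⟩ := pad a ⟨w, c⟩
      exact ⟨Option S', inferInstance, fun i => (h' i).map some, M, x, by rw [y, b], ⟨_, (z w).2 c⟩, by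
        rw [d]; ext w; simp only [mem_ofPred_eq, ← z, List.map_flatMap]⟩
  obtain ⟨S', _, h', L', a, b, -, d⟩ := this
  exact ⟨S', ‹_›, h', L', a, b, by rw [d]⟩

lemma count {k τ : ℕ} {ι : Type} (K : ι → Set (List (Fin k))) (i : K.Injective) (h : ∀ x, ∃ j ≤ τ, Has (K x) j) :
    Nat.card ι ≤ (τ + 1) * 2 ^ (τ + 1) * ((τ + 1) * k * (τ + 1) + 1) ^ (τ + 1) := by
  have : ∀ x, ∃ c : Fin (τ + 1) × Set (Fin (τ + 1)) × (Fin (τ + 1) → Option (Fin (τ + 1) × Fin k × Fin (τ + 1))),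
      K x = {w | Acc c.2.1 {y | some y ∈ range c.2.2} w c.1} := fun x => by
    obtain ⟨j, l, H⟩ := h x
    obtain ⟨Q, _, F, δ, f, p, e, n, c⟩ := trim H (β := Fin (τ + 1)) (by simpa)
    have g := @Function.invFun_eq _ _ _ f
    obtain ⟨D, hD⟩ : ∃ D, D = (fun y => (Function.invFun f y.1, y.2.1, Function.invFun f y.2.2)) ''
      {y ∈ δ | y.1 ∈ range f} := ⟨_, rfl⟩
    have : D.ncard ≤ j := by rw [hD, ← n]; exact (ncard_image_le).trans (ncard_le_ncard (sep_subset _ _))
    obtain ⟨G, hG⟩ := surj (β := Fin (τ + 1)) (insert none (some '' D)) (toFinite _) (by simp)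
      ((ncard_insert_le _ _).trans (by have := ncard_image_le (f := some) (toFinite D); simp; omega))
    refine ⟨(Function.invFun f (f p), f ⁻¹' F, G), ?_⟩
    have : ∀ w q, q ∈ range f → (Acc F δ w q ↔ Acc (f ⁻¹' F) D w (Function.invFun f q)) := fun w => by
      induction w with
      | nil => intro q m; simp [Acc, g m]
      | cons a w ih =>
        intro q m
        refine ⟨fun ⟨r, x, y⟩ => ⟨_, hD ▸ ⟨(q, a, r), ⟨x, m⟩, rfl⟩, (ih r (c _ x)).1 y⟩, fun ⟨r, x, y⟩ => ?_⟩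
        obtain ⟨⟨q', a', r'⟩, ⟨u, v⟩, z⟩ := hD ▸ x
        obtain ⟨z', rfl, rfl⟩ : _ ∧ _ ∧ _ := by simpa using z
        obtain rfl : q' = q := (g v).symm.trans ((congrArg f z').trans (g m))
        exact ⟨r', u, (ih _ (c _ u)).2 y⟩
    rw [e]; ext w
    simp [this w _ (mem_range_self p), hG]
  choose c hc using this
  exact (Nat.card_le_card_of_injective c fun x y e => i (by rw [hc, hc, e])).trans (by simp [mul_assoc])

lemma univ_aut (n k : ℕ) [NeZero n] : ∃ (L : Set (List (Option Bool))) (j : ℕ), j ≤ 6 * n + 1 ∧ Has L j ∧ L.Nonempty ∧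
    ∃ h : Finset (ZMod n × ZMod n) → Fin (k + 2) → List (Option Bool),
      Function.Injective fun M => {w : List (Fin (k + 2)) | w.flatMap (h M) ∈ L} := by
  obtain ⟨δ, hδ⟩ : ∃ δ : Set ((Bool × ZMod n) × Option Bool × Bool × ZMod n), δ = insert ((false, 0), none, (true, 0))
    (range fun p : (Bool × ZMod n) × Option Bool => (p.1, p.2, p.1.1, if p.2 = some p.1.1 then p.1.2 + 1 else p.1.2)) :=
    ⟨_, rfl⟩
  obtain ⟨A, hA⟩ : ∃ A, A = Acc {(true, (0 : ZMod n))} δ := ⟨_, rfl⟩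
  have a : ∀ b w s x, A (some b :: w) (s, x) ↔ A w (s, if b = s then x + 1 else x) := by simp [hA, hδ, Acc]
  have e : ∀ w s x, A (none :: w) (s, x) ↔ (s = false ∧ x = 0 ∧ A w (true, 0)) ∨ A w (s, x) := by
    simp [hA, hδ, Acc, and_assoc]
  have r : ∀ b w s (r : ℕ) x, A (List.replicate r (some b) ++ w) (s, x) ↔ A w (s, if b = s then x + r else x) :=
    fun b w s r => by
    induction r with
    | zero => simp
    | succ r ih => intro x; rw [List.replicate_succ, List.cons_append, a, ih]; split_ifs <;> simp [add_assoc, add_comm (1 : ZMod n)]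
  obtain ⟨W, hW⟩ : ∃ W : ZMod n × ZMod n → List (Option Bool), W = fun p => List.replicate (-p.1).val (some false) ++
    (List.replicate (-p.2).val (some true) ++ none :: (List.replicate p.1.val (some false) ++
      List.replicate p.2.val (some true))) := ⟨_, rfl⟩
  have t : ∀ w y (P : List (ZMod n × ZMod n)), A (P.flatMap W ++ w) (true, y) ↔ A w (true, y) := fun w y P => by
    induction P with
    | nil => simp
    | cons p P ih => simp [hW, r, e, ← ih]
  have f : ∀ w x (P : List (ZMod n × ZMod n)), A (P.flatMap W ++ w) (false, x) ↔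
      A w (false, x) ∨ ∃ l, (x, l) ∈ P ∧ A w (true, l) := fun w x P => by
    induction P with
    | nil => simp
    | cons p P ih =>
      have : A (W p ++ (P.flatMap W ++ w)) (false, x) ↔ (x = p.1 ∧ A (P.flatMap W ++ w) (true, p.2)) ∨
        A (P.flatMap W ++ w) (false, x) := by simp [hW, r, e, add_neg_eq_zero]
      rw [List.flatMap_cons, List.append_assoc, this, t, ih]
      obtain ⟨i, l⟩ := p
      simp only [List.mem_cons, Prod.mk.injEq]
      grind
  refine ⟨{w | A w (false, 0)}, δ.ncard, ?_, ⟨_, inferInstance, _, _, δ, by rw [hA], rfl⟩,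
    ⟨[none], (e _ _ _).2 (Or.inl (by simp [hA, Acc]))⟩,
    fun M i => if i = 0 then [some false, some true] else M.toList.flatMap W, fun M M' h => ?_⟩
  · rw [hδ, ← image_univ]
    refine (ncard_insert_le _ _).trans (add_le_add_left ((ncard_image_le).trans ?_) _)
    simp; omega
  · have s : ∀ (u : Fin (k + 2) → List (Option Bool)), u 0 = [some false, some true] → ∀ w s (r : ℕ) x,
        A ((List.replicate r 0).flatMap u ++ w) (s, x) ↔ A w (s, x + r) := fun u z w s r => by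
      induction r with
      | zero => simp
      | succ r ih => intro x; cases s <;> simp [List.replicate_succ, z, a, ih, add_assoc, add_comm (1 : ZMod n)]
    have q : ∀ (M : Finset (ZMod n × ZMod n)) i l, A ((List.replicate i.val (0 : Fin (k + 2)) ++
        1 :: List.replicate (-l).val 0).flatMap
        fun i : Fin (k + 2) => if i = 0 then [some false, some true] else M.toList.flatMap W) (false, 0) ↔ (i, l) ∈ M :=
      fun M i l => by
      rw [List.flatMap_append, List.flatMap_cons, s _ (by simp), if_neg (by simp), f]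
      have := fun s' x => s (fun i : Fin (k + 2) => if i = 0 then [some false, some true] else
        M.toList.flatMap W) (by simp) [] s' (-l).val x
      simp only [List.append_nil] at this
      simp only [this]
      simp [hA, Acc, add_neg_eq_zero]
    ext ⟨i, l⟩
    rw [← q, ← q]
    exact Set.ext_iff.1 h _

lemma up {k m v : ℕ} (l : 4 ≤ m) (h : v ∈ vals k m) : v * Nat.log 2 m ≤ (12 * k ^ 2 + 12 * k) * m ^ 2 := by
  obtain ⟨S, _, h, L, r, e, rfl⟩ := h
  obtain ⟨t, ht⟩ : ∃ t, t = Nat.log 2 m / 2 := ⟨_, rfl⟩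
  have a : 2 ≤ Nat.log 2 m := Nat.le_log_of_pow_le (by simp) l
  have b : 2 ^ t * 2 ^ t ≤ m := by
    rw [← pow_add]; exact (Nat.pow_le_pow_right (by simp) (by omega)).trans (Nat.pow_log_le_self 2 (by omega))
  have c : t < 2 ^ t := Nat.lt_two_pow_self
  have t1 : 0 < t := by omega
  have d := Nat.div_add_mod m t
  have d' := Nat.mod_lt m t1
  obtain ⟨j, x, y⟩ := upper (N := m / t + 1) (t := t) h (e ▸ has_tc r) (by nlinarith)
  obtain ⟨P, hP⟩ : ∃ P, P = (m / t + 1) * t := ⟨_, rfl⟩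
  have u : 2 ^ t * t ≤ m := (Nat.mul_le_mul_left _ c.le).trans b
  have u' : t ≤ m := (Nat.le_mul_of_pos_left _ (by positivity)).trans u
  have p : P ≤ 2 * m := by rw [hP, add_mul, mul_comm (m / t)]; omega
  have : j * t ≤ k ^ 2 * (P * P) + k * (P * (2 ^ t * t)) + k * (P * t) :=
    (Nat.mul_le_mul_right t x).trans (by rw [hP]; exact le_of_eq (by ring))
  have : j * t ≤ k ^ 2 * (2 * m * (2 * m)) + k * (2 * m * m) + k * (2 * m * m) := this.trans (by gcongr)
  calc _ ≤ j * (3 * t) := Nat.mul_le_mul (Nat.sInf_le y) (by omega)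
    _ ≤ _ := by nlinarith

theorem result (k : ℕ) : ∃ C m₀ : ℕ, ∀ m ≥ m₀, BddAbove (vals k m) ∧ g k m * Nat.log 2 m ≤ C * m ^ 2 ∧
    (2 ≤ k → m ^ 2 ≤ C * (g k m * Nat.log 2 m)) := by
  refine ⟨12 * k ^ 2 + 12 * k + 3072, 12 * k ^ 2 + 12 * k + 1000, fun m hm => ?_⟩
  have a : 2 ≤ Nat.log 2 m := Nat.le_log_of_pow_le (by simp) (by omega)
  have b : BddAbove (vals k m) := ⟨(12 * k ^ 2 + 12 * k) * m ^ 2, fun v h => by
    have := up (by omega) h; nlinarith⟩
  have c : g k m * Nat.log 2 m ≤ (12 * k ^ 2 + 12 * k) * m ^ 2 := by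
    rcases (vals k m).eq_empty_or_nonempty with e | e
    · simp [g, e]
    · exact up (by omega) (Nat.sSup_mem e b)
  refine ⟨b, c.trans (Nat.mul_le_mul_right _ (by omega)), fun l => ?_⟩
  obtain ⟨k, rfl⟩ : ∃ k', k = k' + 2 := ⟨k - 2, by omega⟩
  obtain ⟨n, hn⟩ : ∃ n, n = m / 7 := ⟨_, rfl⟩
  have : NeZero n := ⟨by omega⟩
  obtain ⟨L, j, x, y, z, h, i⟩ := univ_aut n k
  have := count (τ := g (k + 2) m) _ i fun M => by
    have r : ∃ j, Has {w : List (Fin (k + 2)) | w.flatMap (h M) ∈ L} j :=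
      (upper (N := j + 1) (t := 1) (h M) y (by simp)).imp fun _ => And.right
    exact ⟨_, le_csSup b (pads (h M) ⟨j, y⟩ z ((Nat.sInf_le y).trans (by omega))), has_tc r⟩
  generalize g (k + 2) m = τ at *
  obtain ⟨e, he⟩ : ∃ e, e = Nat.log 2 m := ⟨_, rfl⟩
  have p : m ≤ 2 ^ (e + 1) := he ▸ (Nat.lt_pow_succ_log_self (by simp) m).le
  have p' : e < m := he ▸ Nat.log_lt_self 2 (by omega)
  rw [← he] at a c ⊢
  have t : τ + 1 ≤ m ^ 3 := by
    have : 0 < m ^ 2 := pow_pos (by omega) _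
    have : (12 * (k + 2) ^ 2 + 12 * (k + 2) + 1) * m ^ 2 ≤ m * m ^ 2 := by gcongr; omega
    nlinarith
  have t' : (τ + 1) * (k + 2) * (τ + 1) + 1 ≤ (2 ^ (e + 1)) ^ 8 := by
    have : (τ + 1) * (k + 2) * (τ + 1) ≤ m ^ 3 * m * m ^ 3 := by gcongr; nlinarith
    have : 0 < m ^ 7 := pow_pos (by omega) _
    calc _ ≤ 2 * m ^ 7 := by nlinarith
      _ ≤ m * m ^ 7 := by gcongr; omega
      _ = m ^ 8 := by ring
      _ ≤ _ := by gcongr
  have q : 2 ^ (n * n) ≤ 2 ^ ((e + 1) * 3 + (τ + 1) + (e + 1) * 8 * (τ + 1)) := by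
    refine le_trans (by simp) (this.trans ?_)
    rw [pow_add 2 (_ + _), pow_add 2 (_ * 3), pow_mul, pow_mul 2 (_ * 8), pow_mul]
    gcongr
    exact t.trans (by gcongr)
  rw [Nat.pow_le_pow_iff_right (by simp)] at q
  have u : m * m ≤ 8 * n * (8 * n) := by gcongr <;> omega
  rcases τ with _ | τ
  · nlinarith
  · nlinarith [Nat.zero_le (k ^ 2 * ((τ + 1) * e)), Nat.zero_le (k * ((τ + 1) * e)), Nat.zero_le (τ * e)]

end Pool.Agent.Results.MP_91c91a_lc.Order
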